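import Pool.Agent.U195.MFE.Func

/-!
# Corners of the level curve of `F`, and smoothness of other level curves
-/

namespace Pool.Agent.U195.MFE

open scoped Topology
open Filter MeasureTheory

/-- Differentiability of the potential of a measure at a non-atom. -/
theorem differentiable_pot (ν : Measure P) [IsFiniteMeasure ν]
    (hint : Integrable (fun y : P => ‖y‖) ν) {z : P} (hz : ν {z} = 0) :
    DifferentiableAt ℝ (fun x : P => ∫ y, ‖x - y‖ ∂ν) z := by
  have hmeas : ∀ x : P, AEStronglyMeasurable (fun y : P => ‖x - y‖) ν := fun x =>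
    (by fun_prop : Continuous fun y : P => ‖x - y‖).aestronglyMeasurable
  have hint2 : ∀ x : P, Integrable (fun y : P => ‖x - y‖) ν := by
    intro x
    refine ((integrable_const ‖x‖).add hint).mono' (hmeas x) ?_
    refine Eventually.of_forall fun y => ?_
    simp only [norm_norm, Pi.add_apply]
    exact norm_sub_le x y
  have hae : ∀ᵐ y ∂ν, y ≠ z := by
    rw [ae_iff]
    simpa using hz
  have hd : ∀ᵐ y ∂ν, HasFDerivAt (fun x : P => ‖x - y‖)
      (fderiv ℝ (fun x : P => ‖x - y‖) z) z := by
    filter_upwards [hae] with y hy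
    apply DifferentiableAt.hasFDerivAt
    have h1 : z - y ≠ 0 := sub_ne_zero.2 (Ne.symm hy)
    exact (differentiableAt_id.sub_const y).norm ℝ h1
  have h := hasFDerivAt_integral_of_dominated_loc_of_lip (𝕜 := ℝ) (μ := ν)
    (F := fun x y => ‖x - y‖) (F' := fun y => fderiv ℝ (fun x : P => ‖x - y‖) z) (x₀ := z)
    (s := Metric.ball z 1) (bound := fun _ => 1)
    (Metric.ball_mem_nhds z one_pos)
    (Eventually.of_forall hmeas) (hint2 z) ?_ ?_ (integrable_const 1) hd
  · exact h.2.differentiableAt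
  · have : Measurable fun y : P => fderiv ℝ (fun x : P => ‖x - y‖) z := by
      have h2 : (fun y : P => fderiv ℝ (fun x : P => ‖x - y‖) z) =
          fun y : P => fderiv ℝ (fun x : P => ‖x‖) (z - y) := by
        funext y
        exact fderiv_comp_sub (f := fun x : P => ‖x‖) y
      rw [h2]
      exact (measurable_fderiv ℝ (fun x : P => ‖x‖)).comp (by fun_prop)
    exact this.aestronglyMeasurable
  · refine Eventually.of_forall fun y => ?_
    apply LipschitzOnWith.of_dist_le_mul
    intro a _ b _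
    have := abs_norm_sub_norm_le (a - y) (b - y)
    rw [sub_sub_sub_cancel_right] at this
    simpa [Real.dist_eq, dist_eq_norm] using this

/-- weights with the `i`-th one removed -/
noncomputable def w' (i j : ℕ) : ℝ := if j = i then 0 else w j

/-- `F` without the `i`-th term -/
noncomputable def Gi (i : ℕ) (x : P) : ℝ := ‖x‖ + ∑' j, w' i j * ‖x - q j‖

theorem F_eq (i : ℕ) (x : P) : F x = Gi i x + w i * ‖x - q i‖ := by
  unfold F Gi
  have h := (summable_term x).tsum_eq_add_tsum_ite i
  rw [h]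
  have h2 : ∀ j, (if j = i then 0 else w j * ‖x - q j‖) = w' i j * ‖x - q j‖ := by
    intro j
    unfold w'
    split_ifs <;> simp
  simp only [h2]
  ring

theorem w'_nonneg (i j : ℕ) : 0 ≤ w' i j := by
  unfold w'; split_ifs
  · exact le_rfl
  · exact (w_pos j).le

theorem w'_le (i j : ℕ) : w' i j ≤ w j := by
  unfold w'; split_ifs
  · exact (w_pos j).le
  · exact le_rfl

theorem summable_term' (i : ℕ) (x : P) : Summable fun j => w' i j * ‖x - q j‖ :=
  Summable.of_nonneg_of_le (fun j => mul_nonneg (w'_nonneg i j) (norm_nonneg _))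
    (fun j => mul_le_mul_of_nonneg_right (w'_le i j) (norm_nonneg _)) (summable_term x)

theorem norm_line_diff {z τ : P} (hz : z ≠ 0) :
    DifferentiableAt ℝ (fun t : ℝ => ‖z + t • τ‖) 0 := by
  have h : DifferentiableAt ℝ (fun t : ℝ => z + t • τ) 0 := by fun_prop
  exact h.norm ℝ (by simpa using hz)

theorem slope_bound (z τ : P) (t : ℝ) : |t⁻¹ * (‖z + t • τ‖ - ‖z‖)| ≤ ‖τ‖ := by
  by_cases ht : t = 0
  · simp [ht]
  rw [abs_mul, abs_inv, inv_mul_le_iff₀ (abs_pos.2 ht)]
  have := abs_norm_sub_norm_le (z + t • τ) z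
  rw [add_sub_cancel_left, norm_smul, Real.norm_eq_abs] at this
  exact this

theorem Gi_line_diff (i : ℕ) (τ : P) :
    DifferentiableAt ℝ (fun t : ℝ => Gi i (q i + t • τ)) 0 := by
  have h0 : q i ≠ 0 := by
    intro h
    have h1 := norm_q i
    rw [h, norm_zero] at h1
    linarith [rr_ge i]
  have h1 : DifferentiableAt ℝ (fun t : ℝ => ‖q i + t • τ‖) 0 := norm_line_diff h0
  have h2 : DifferentiableAt ℝ (fun t : ℝ => ∑' j, w' i j * ‖(q i + t • τ) - q j‖) 0 := by
    have hz : ∀ j, j ≠ i → q i - q j ≠ 0 := fun j hj h =>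
      hj (q_injective (sub_eq_zero.1 h)).symm
    set g : ℕ → ℝ := fun j => w' i j * deriv (fun t : ℝ => ‖(q i - q j) + t • τ‖) 0 with hg
    refine HasDerivAt.differentiableAt (f' := ∑' j, g j) ?_
    rw [hasDerivAt_iff_tendsto_slope_zero]
    have e : ∀ t : ℝ, t⁻¹ • ((∑' j, w' i j * ‖(q i + (0 + t) • τ) - q j‖) -
        ∑' j, w' i j * ‖(q i + (0:ℝ) • τ) - q j‖) =
        ∑' j, w' i j * (t⁻¹ * (‖(q i - q j) + t • τ‖ - ‖q i - q j‖)) := by
      intro t
      rw [← (summable_term' i _).tsum_sub (summable_term' i _), smul_eq_mul, ← tsum_mul_left]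
      apply tsum_congr
      intro j
      have e1 : q i + (0 + t) • τ - q j = (q i - q j) + t • τ := by rw [zero_add]; abel
      have e2 : q i + (0:ℝ) • τ - q j = q i - q j := by rw [zero_smul, add_zero]
      rw [e1, e2]; ring
    simp only [e]
    apply tendsto_tsum_of_dominated_convergence (bound := fun j => w j * ‖τ‖)
      (summable_w.mul_right _)
    · intro j
      by_cases hj : j = i
      · have : w' i j = 0 := by simp [w', hj]
        simp only [hg, this, zero_mul]
        exact tendsto_const_nhds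
      · have hd := (norm_line_diff (τ := τ) (hz j hj)).hasDerivAt
        rw [hasDerivAt_iff_tendsto_slope_zero] at hd
        simp only [zero_add, zero_smul, add_zero, smul_eq_mul] at hd
        exact hd.const_mul _
    · refine Eventually.of_forall fun t j => ?_
      rw [Real.norm_eq_abs, abs_mul, abs_of_nonneg (w'_nonneg i j)]
      exact mul_le_mul (w'_le i j) (slope_bound _ _ _) (abs_nonneg _) (w_pos j).le
  exact h1.add h2

/-- No level curve of a convex function differentiable at `q i` coincides with `{F = 1}`. -/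
theorem no_smooth (i : ℕ) (K : P → ℝ) (hdiff : DifferentiableAt ℝ K (q i))
    (hconv : ConvexOn ℝ Set.univ K) (hcont : Continuous K) {c : ℝ} (hc : ∃ x0, K x0 < c)
    (hlev : {x | F x = 1} = {x | K x = c}) : False := by
  have hlev' : ∀ x, K x = c → F x = 1 := fun x hx => by
    have : x ∈ {x | F x = 1} := by rw [hlev]; exact hx
    exact this
  have hKq : K (q i) = c := by
    have : q i ∈ {x | K x = c} := by rw [← hlev]; exact F_q i
    exact this
  obtain ⟨x0, hx0⟩ := hc
  set A := fderiv ℝ K (q i) with hA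
  have hfd : HasFDerivAt K A (q i) := hdiff.hasFDerivAt
  -- the derivative is not zero
  have hA0 : A (x0 - q i) < 0 := by
    have hl : HasDerivAt (fun t : ℝ => K (q i + t • (x0 - q i))) (A (x0 - q i)) 0 := by
      have h1 : HasDerivAt (fun t : ℝ => q i + t • (x0 - q i)) (x0 - q i) 0 := by
        have := ((hasDerivAt_id (0:ℝ)).smul_const (x0 - q i)).const_add (q i)
        simpa using this
      have h2 : HasFDerivAt K A (q i + (0:ℝ) • (x0 - q i)) := by simpa using hfd
      exact h2.comp_hasDerivAt (0:ℝ) h1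
    have h3 := hl.hasDerivWithinAt (s := Set.Ioi 0)
    rw [hasDerivWithinAt_iff_tendsto_slope' (by simp)] at h3
    have h4 : A (x0 - q i) ≤ K x0 - c := by
      refine le_of_tendsto h3 ?_
      have h5 : Set.Ioo (0:ℝ) 1 ∈ 𝓝[>] (0:ℝ) := Ioo_mem_nhdsGT one_pos
      filter_upwards [h5] with t ht
      have h6 := hconv.2 (Set.mem_univ (q i)) (Set.mem_univ x0) (sub_nonneg.2 ht.2.le) ht.1.le
        (by ring)
      have e : (1 - t) • q i + t • x0 = q i + t • (x0 - q i) := by module
      rw [e, smul_eq_mul, smul_eq_mul, hKq] at h6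
      rw [slope_def_field]
      simp only [zero_smul, add_zero, sub_zero, hKq]
      rw [div_le_iff₀ ht.1]
      linarith
    linarith
  obtain ⟨w0, hw0⟩ : ∃ w0, A w0 = 1 := by
    refine ⟨(A (x0 - q i))⁻¹ • (x0 - q i), ?_⟩
    rw [map_smul, smul_eq_mul, inv_mul_cancel₀ hA0.ne]
  obtain ⟨τ, hτ, hAτ⟩ : ∃ τ : P, τ ≠ 0 ∧ A τ = 0 := by
    have h1 : LinearMap.ker A.toLinearMap ≠ ⊥ := by
      apply LinearMap.ker_ne_bot_of_finrank_lt
      simp
    obtain ⟨τ, h2, h3⟩ := Submodule.exists_mem_ne_zero_of_ne_bot h1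
    exact ⟨τ, h3, h2⟩
  -- the derivative of `F` along `τ` vanishes
  have hFd : HasDerivAt (fun t : ℝ => F (q i + t • τ)) 0 0 := by
    rw [hasDerivAt_iff_isLittleO, Asymptotics.isLittleO_iff]
    intro ε hε
    set ε' := ε / (2 * (‖w0‖ + 1)) with hε'
    have hε'0 : 0 < ε' := by positivity
    set B := ‖τ‖ + ε' * ‖w0‖ + 1 with hB
    have hB0 : 0 < B := by positivity
    have hK := hfd.isLittleO
    rw [Asymptotics.isLittleO_iff] at hK
    have hη : 0 < ε' / (2 * B) := by positivity
    have hK1 := hK hη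
    rw [Metric.eventually_nhds_iff] at hK1
    obtain ⟨ρ, hρ, hK2⟩ := hK1
    rw [Metric.eventually_nhds_iff]
    refine ⟨ρ / B, by positivity, ?_⟩
    intro t ht
    rw [dist_zero_right, Real.norm_eq_abs, lt_div_iff₀ hB0] at ht
    simp only [sub_zero, zero_smul, add_zero, smul_zero, F_q, Real.norm_eq_abs]
    rcases eq_or_ne t 0 with h0 | h0
    · subst h0; simp [F_q]
    have ht0 : 0 < |t| := abs_pos.2 h0
    have hs : ∀ s : ℝ, |s| ≤ ε' * |t| → |K (q i + t • τ + s • w0) - c - s| ≤ ε' / 2 * |t| := by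
      intro s hs
      have hn : ‖(q i + t • τ + s • w0) - q i‖ ≤ |t| * B := by
        have e : (q i + t • τ + s • w0) - q i = t • τ + s • w0 := by abel
        rw [e]
        calc ‖t • τ + s • w0‖ ≤ ‖t • τ‖ + ‖s • w0‖ := norm_add_le _ _
          _ = |t| * ‖τ‖ + |s| * ‖w0‖ := by
              rw [norm_smul, norm_smul, Real.norm_eq_abs, Real.norm_eq_abs]
          _ ≤ |t| * ‖τ‖ + (ε' * |t|) * ‖w0‖ := by
              have := mul_le_mul_of_nonneg_right hs (norm_nonneg w0)
              linarith
          _ ≤ |t| * B := by rw [hB]; nlinarith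
      have h1 := hK2 (y := q i + t • τ + s • w0) (by
        rw [dist_eq_norm]; exact lt_of_le_of_lt hn ht)
      have e2 : A ((q i + t • τ + s • w0) - q i) = s := by
        have e : (q i + t • τ + s • w0) - q i = t • τ + s • w0 := by abel
        rw [e, map_add, map_smul, map_smul, hAτ, hw0, smul_zero, zero_add, smul_eq_mul, mul_one]
      rw [e2, hKq, Real.norm_eq_abs] at h1
      calc _ ≤ ε' / (2 * B) * ‖(q i + t • τ + s • w0) - q i‖ := h1
        _ ≤ ε' / (2 * B) * (|t| * B) := mul_le_mul_of_nonneg_left hn hη.le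
        _ = ε' / 2 * |t| := by field_simp
    have hp := hs (ε' * |t|) (by rw [abs_of_nonneg (by positivity)])
    have hm := hs (-(ε' * |t|)) (by rw [abs_neg, abs_of_nonneg (by positivity)])
    rw [abs_le] at hp hm
    have hpos : 0 < ε' * |t| := by positivity
    have hcK : ContinuousOn (fun s : ℝ => K (q i + t • τ + s • w0))
        (Set.Icc (-(ε' * |t|)) (ε' * |t|)) :=
      (hcont.comp (by fun_prop)).continuousOn
    have hiv := intermediate_value_Icc (by linarith : -(ε' * |t|) ≤ ε' * |t|) hcK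
    obtain ⟨s, hs1, hs2⟩ := hiv (show c ∈ _ by constructor <;> nlinarith [hp.1, hm.2])
    have hF1 := hlev' _ hs2
    have h3 := F_lip (q i + t • τ) (q i + t • τ + s • w0)
    rw [hF1] at h3
    have e : q i + t • τ - (q i + t • τ + s • w0) = (-s) • w0 := by module
    rw [e, norm_smul, norm_neg, Real.norm_eq_abs] at h3
    have hs3 : |s| ≤ ε' * |t| := abs_le.2 hs1
    have h4 : 13 / 12 * (|s| * ‖w0‖) ≤ ε * |t| := by
      have h5 : |s| * ‖w0‖ ≤ ε' * |t| * (‖w0‖ + 1) := by
        apply mul_le_mul hs3 (by linarith) (norm_nonneg _) (by positivity)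
      have h6 : ε' * |t| * (‖w0‖ + 1) = ε * |t| / 2 := by
        rw [hε']; field_simp
      rw [h6] at h5
      have : 0 < ε * |t| := by positivity
      nlinarith
    exact h3.trans h4
  -- but `F` has a conical singularity at `q i`
  have hG := Gi_line_diff i τ
  have h1 : DifferentiableAt ℝ (fun t : ℝ => F (q i + t • τ) - Gi i (q i + t • τ)) 0 :=
    hFd.differentiableAt.sub hG
  have h2 : (fun t : ℝ => F (q i + t • τ) - Gi i (q i + t • τ)) =
      fun t : ℝ => (w i * ‖τ‖) * |t| := by
    funext t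
    rw [F_eq i, add_sub_cancel_left, add_sub_cancel_left, norm_smul, Real.norm_eq_abs]
    ring
  rw [h2] at h1
  have h3 : w i * ‖τ‖ ≠ 0 := mul_ne_zero (w_pos i).ne' (norm_ne_zero_iff.2 hτ)
  have h4 : DifferentiableAt ℝ (fun t : ℝ => (w i * ‖τ‖)⁻¹ * ((w i * ‖τ‖) * |t|)) 0 :=
    h1.const_mul _
  have h5 : (fun t : ℝ => (w i * ‖τ‖)⁻¹ * ((w i * ‖τ‖) * |t|)) = fun t => |t| := by
    funext t
    rw [← mul_assoc, inv_mul_cancel₀ h3, one_mul]
  rw [h5] at h4
  exact not_differentiableAt_abs_zero h4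

end Pool.Agent.U195.MFE
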