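import Mathlib

/-!
# A convex function with infinitely many conical points on one level set

Weights `w j = (1/4)^(j+2)`, unit vectors `u j`, and points `q j = r j • u j` such that
`F(q i) = 1` for all `i`, where `F(x) = ‖x‖ + ∑ w j ‖x - q j‖`.
-/

namespace Pool.Agent.U195.MFE

open scoped BigOperators BoundedContinuousFunction

/-- the Euclidean plane -/
abbrev P := EuclideanSpace ℝ (Fin 2)

/-- the weights -/
noncomputable def w (j : ℕ) : ℝ := (1 / 4) ^ (j + 2)

theorem w_pos (j : ℕ) : 0 < w j := by unfold w; positivity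

theorem hasSum_w : HasSum w (1 / 12) := by
  have h := (hasSum_geometric_of_lt_one (r := (1 / 4 : ℝ)) (by norm_num) (by norm_num)).mul_left
    ((1 / 4 : ℝ) ^ 2)
  have h2 : ((1 / 4 : ℝ) ^ 2) * (1 - 1 / 4)⁻¹ = 1 / 12 := by norm_num
  rw [h2] at h
  have h3 : w = fun j => ((1 / 4 : ℝ) ^ 2) * (1 / 4) ^ j := by
    ext j
    show (1 / 4 : ℝ) ^ (j + 2) = _
    rw [pow_add]; ring
  rw [h3]
  exact h

theorem summable_w : Summable w := hasSum_w.summable

theorem tsum_w : ∑' j, w j = 1 / 12 := hasSum_w.tsum_eq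

theorem summable_w_mul {a : ℕ → ℝ} {C : ℝ} (h0 : ∀ j, 0 ≤ a j) (h : ∀ j, a j ≤ C) :
    Summable fun j => w j * a j := by
  refine Summable.of_nonneg_of_le (fun j => mul_nonneg (w_pos j).le (h0 j))
    (fun j => mul_le_mul_of_nonneg_left (h j) (w_pos j).le) (summable_w.mul_right C)

theorem tsum_w_mul_le {a : ℕ → ℝ} {C : ℝ} (h0 : ∀ j, 0 ≤ a j) (h : ∀ j, a j ≤ C) :
    ∑' j, w j * a j ≤ C / 12 := by
  calc ∑' j, w j * a j ≤ ∑' j, w j * C :=
        (summable_w_mul h0 h).tsum_le_tsum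
          (fun j => mul_le_mul_of_nonneg_left (h j) (w_pos j).le) (summable_w.mul_right C)
    _ = C / 12 := by rw [tsum_mul_right, tsum_w]; ring

/-- distinct unit vectors -/
noncomputable def u (j : ℕ) : P := !₂[√(1 - (1 / ((j:ℝ) + 1)) ^ 2), 1 / ((j:ℝ) + 1)]

theorem norm_u (j : ℕ) : ‖u j‖ = 1 := by
  have h1 : (0:ℝ) < (j:ℝ) + 1 := by positivity
  have h2 : (1 / ((j:ℝ) + 1)) ≤ 1 := by
    rw [div_le_one h1]; linarith [Nat.cast_nonneg (α := ℝ) j]
  have h3 : (0:ℝ) ≤ 1 - (1 / ((j:ℝ) + 1)) ^ 2 := by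
    have : (1 / ((j:ℝ) + 1)) ^ 2 ≤ 1 := pow_le_one₀ (by positivity) h2
    linarith
  rw [EuclideanSpace.norm_eq]
  simp only [u, Fin.sum_univ_two]
  simp only [Matrix.cons_val_zero, Matrix.cons_val_one, Real.norm_eq_abs, sq_abs]
  rw [Real.sq_sqrt h3]
  simp

theorem u_injective : Function.Injective u := by
  intro i j h
  have h1 : u i 1 = u j 1 := by rw [h]
  simp only [u, PiLp.toLp_apply, Matrix.cons_val_one, Matrix.cons_val_fin_one] at h1
  have hi : (0:ℝ) < (i:ℝ) + 1 := by positivity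
  have hj : (0:ℝ) < (j:ℝ) + 1 := by positivity
  rw [div_eq_div_iff hi.ne' hj.ne'] at h1
  have h2 : (i:ℝ) = j := by linarith
  exact_mod_cast h2

/-- the map whose fixed point we want -/
noncomputable def Tf (r : ℕ →ᵇ ℝ) (i : ℕ) : ℝ := 1 - ∑' j, w j * ‖r i • u i - r j • u j‖

theorem norm_diff_le (r : ℕ →ᵇ ℝ) (i j : ℕ) : ‖r i • u i - r j • u j‖ ≤ 2 * ‖r‖ := by
  calc ‖r i • u i - r j • u j‖ ≤ ‖r i • u i‖ + ‖r j • u j‖ := norm_sub_le _ _
    _ = ‖r i‖ + ‖r j‖ := by rw [norm_smul, norm_smul, norm_u, norm_u]; ring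
    _ ≤ ‖r‖ + ‖r‖ := add_le_add (r.norm_coe_le_norm i) (r.norm_coe_le_norm j)
    _ = 2 * ‖r‖ := by ring

theorem Tf_bound (r : ℕ →ᵇ ℝ) (i : ℕ) : ‖Tf r i‖ ≤ 1 + 2 * ‖r‖ / 12 := by
  unfold Tf
  have h1 := tsum_w_mul_le (fun j => norm_nonneg (r i • u i - r j • u j)) (norm_diff_le r i)
  have h2 : 0 ≤ ∑' j, w j * ‖r i • u i - r j • u j‖ :=
    tsum_nonneg fun j => mul_nonneg (w_pos j).le (norm_nonneg _)
  have h3 := norm_nonneg r
  rw [Real.norm_eq_abs, abs_le]
  constructor <;> linarith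

/-- the contraction -/
noncomputable def TT (r : ℕ →ᵇ ℝ) : ℕ →ᵇ ℝ :=
  BoundedContinuousFunction.ofNormedAddCommGroupDiscrete (Tf r) _ (Tf_bound r)

theorem TT_apply (r : ℕ →ᵇ ℝ) (i : ℕ) :
    TT r i = 1 - ∑' j, w j * ‖r i • u i - r j • u j‖ := rfl

theorem TT_dist (r s : ℕ →ᵇ ℝ) : dist (TT r) (TT s) ≤ 1 / 6 * dist r s := by
  rw [BoundedContinuousFunction.dist_le (by positivity)]
  intro i
  rw [TT_apply, TT_apply, Real.dist_eq]
  have hr := summable_w_mul (fun j => norm_nonneg (r i • u i - r j • u j)) (norm_diff_le r i)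
  have hs := summable_w_mul (fun j => norm_nonneg (s i • u i - s j • u j)) (norm_diff_le s i)
  have h1 : ∀ j, |‖s i • u i - s j • u j‖ - ‖r i • u i - r j • u j‖| ≤ 2 * dist r s := by
    intro j
    have e : (s i • u i - s j • u j) - (r i • u i - r j • u j) =
        (s i - r i) • u i - (s j - r j) • u j := by module
    calc |‖s i • u i - s j • u j‖ - ‖r i • u i - r j • u j‖|
        ≤ ‖(s i • u i - s j • u j) - (r i • u i - r j • u j)‖ := abs_norm_sub_norm_le _ _
      _ = ‖(s i - r i) • u i - (s j - r j) • u j‖ := by rw [e]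
      _ ≤ ‖(s i - r i) • u i‖ + ‖(s j - r j) • u j‖ := norm_sub_le _ _
      _ = dist (r i) (s i) + dist (r j) (s j) := by
          rw [norm_smul, norm_smul, norm_u, norm_u, mul_one, mul_one, Real.norm_eq_abs,
            Real.norm_eq_abs, dist_comm, dist_comm (r j), Real.dist_eq, Real.dist_eq]
      _ ≤ dist r s + dist r s :=
          add_le_add (BoundedContinuousFunction.dist_coe_le_dist i)
            (BoundedContinuousFunction.dist_coe_le_dist j)
      _ = 2 * dist r s := by ring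
  have h2 : (1 - ∑' j, w j * ‖r i • u i - r j • u j‖) - (1 - ∑' j, w j * ‖s i • u i - s j • u j‖) =
      ∑' j, w j * (‖s i • u i - s j • u j‖ - ‖r i • u i - r j • u j‖) := by
    simp only [mul_sub]
    rw [hs.tsum_sub hr]
    ring
  rw [h2]
  have h3 := summable_w_mul
    (fun j => abs_nonneg (‖s i • u i - s j • u j‖ - ‖r i • u i - r j • u j‖)) h1
  have h4 := tsum_w_mul_le
    (fun j => abs_nonneg (‖s i • u i - s j • u j‖ - ‖r i • u i - r j • u j‖)) h1
  have h5 : ∀ j, ‖w j * (‖s i • u i - s j • u j‖ - ‖r i • u i - r j • u j‖)‖ =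
      w j * |‖s i • u i - s j • u j‖ - ‖r i • u i - r j • u j‖| := by
    intro j
    rw [Real.norm_eq_abs, abs_mul, abs_of_pos (w_pos j)]
  have h6 : ‖∑' j, w j * (‖s i • u i - s j • u j‖ - ‖r i • u i - r j • u j‖)‖ ≤
      ∑' j, ‖w j * (‖s i • u i - s j • u j‖ - ‖r i • u i - r j • u j‖)‖ := by
    apply norm_tsum_le_tsum_norm
    simp only [h5]
    exact h3
  simp only [h5] at h6
  rw [Real.norm_eq_abs] at h6
  linarith

theorem TT_contracting : ContractingWith (1 / 6) TT := by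
  refine ⟨by norm_num, LipschitzWith.of_dist_le_mul ?_⟩
  intro r s
  have := TT_dist r s
  simpa using this

/-- the radii -/
noncomputable def rr : ℕ →ᵇ ℝ := TT_contracting.fixedPoint

theorem rr_eq (i : ℕ) : rr i = 1 - ∑' j, w j * ‖rr i • u i - rr j • u j‖ := by
  have h : TT rr = rr := TT_contracting.fixedPoint_isFixedPt
  conv_lhs => rw [← h]
  rfl

theorem norm_rr_le : ‖rr‖ ≤ 6 / 5 := by
  have h : ‖rr‖ ≤ 1 + 2 * ‖rr‖ / 12 := by
    rw [BoundedContinuousFunction.norm_le (by have := norm_nonneg rr; positivity)]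
    intro i
    rw [rr_eq i]
    exact Tf_bound rr i
  linarith

theorem rr_le (i : ℕ) : rr i ≤ 1 := by
  rw [rr_eq i]
  have h2 : 0 ≤ ∑' j, w j * ‖rr i • u i - rr j • u j‖ :=
    tsum_nonneg fun j => mul_nonneg (w_pos j).le (norm_nonneg _)
  linarith

theorem rr_ge (i : ℕ) : 4 / 5 ≤ rr i := by
  rw [rr_eq i]
  have h1 := tsum_w_mul_le (fun j => norm_nonneg (rr i • u i - rr j • u j)) (norm_diff_le rr i)
  have h2 := norm_rr_le
  linarith

/-- the points -/
noncomputable def q (i : ℕ) : P := rr i • u i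

theorem norm_q (i : ℕ) : ‖q i‖ = rr i := by
  unfold q
  rw [norm_smul, norm_u, mul_one, Real.norm_eq_abs, abs_of_nonneg (by linarith [rr_ge i])]

theorem norm_q_le (i : ℕ) : ‖q i‖ ≤ 1 := by rw [norm_q]; exact rr_le i

theorem q_injective : Function.Injective q := by
  intro i j h
  have h1 : rr i = rr j := by rw [← norm_q, ← norm_q, h]
  have h2 : rr i ≠ 0 := by linarith [rr_ge i]
  unfold q at h
  rw [← h1] at h
  exact u_injective (smul_right_injective P h2 h)

/-- the function -/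
noncomputable def F (x : P) : ℝ := ‖x‖ + ∑' j, w j * ‖x - q j‖

theorem F_q (i : ℕ) : F (q i) = 1 := by
  unfold F
  rw [norm_q]
  have := rr_eq i
  unfold q
  linarith

end Pool.Agent.U195.MFE
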