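import Pool.Agent.U195.MFE.Fix

/-!
# Level curves of convex functions; the function `F` and its finite approximations
-/

namespace Pool.Agent.U195.MFE

open scoped Topology
open Filter

/-- a convex continuous function `G` with `‖x‖ ≤ G x` and `G 0 ≤ 1/2` -/
structure Good (G : P → ℝ) : Prop where
  cont : Continuous G
  convex : ConvexOn ℝ Set.univ G
  ge : ∀ x, ‖x‖ ≤ G x
  zero : G 0 ≤ 1 / 2

theorem Good.ray_lt {G : P → ℝ} (hG : Good G) {x : P} (hx : G x = 1) {t : ℝ} (h0 : 0 ≤ t)
    (h1 : t ≤ 1) : G (t • x) ≤ 1 - (1 - t) / 2 := by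
  have h := hG.convex.2 (Set.mem_univ x) (Set.mem_univ 0) h0 (sub_nonneg.2 h1) (by ring)
  rw [smul_zero, add_zero, hx, smul_eq_mul, smul_eq_mul] at h
  have := hG.zero
  nlinarith

theorem Good.ray_gt {G : P → ℝ} (hG : Good G) {x : P} (hx : G x = 1) {t : ℝ}
    (h1 : 1 ≤ t) : 1 + (t - 1) / 2 ≤ G (t • x) := by
  have ht : 0 < t := by linarith
  have h2 : 1 / t ≤ 1 := by rw [div_le_one ht]; exact h1
  have h := hG.convex.2 (Set.mem_univ (t • x)) (Set.mem_univ 0) (by positivity : 0 ≤ 1 / t)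
    (sub_nonneg.2 h2) (by ring)
  rw [smul_zero, add_zero, smul_smul, one_div_mul_cancel ht.ne', one_smul, hx, smul_eq_mul,
    smul_eq_mul] at h
  have h3 : t * 1 ≤ t * (1 / t * G (t • x) + (1 - 1 / t) * G 0) :=
    mul_le_mul_of_nonneg_left h ht.le
  have h4 : t * (1 / t * G (t • x) + (1 - 1 / t) * G 0) = G (t • x) + (t - 1) * G 0 := by
    field_simp
  rw [h4] at h3
  have := hG.zero
  nlinarith

/-- two good functions that are close have close level curves -/
theorem Good.close {F G : P → ℝ} (hF : Good F) (hG : Good G) {δ η : ℝ} (hη : 0 < η)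
    (hη1 : η ≤ 1) (hδ : δ < η / 2) (hFG : ∀ x : P, ‖x‖ ≤ 2 → |F x - G x| ≤ δ) {x : P}
    (hx : F x = 1) : ∃ y : P, G y = 1 ∧ ‖x - y‖ ≤ η := by
  have hx1 : ‖x‖ ≤ 1 := by rw [← hx]; exact hF.ge x
  have ha := hF.ray_lt hx (t := 1 - η) (by linarith) (by linarith)
  have hb := hF.ray_gt hx (t := 1 + η) (by linarith)
  have hn1 : ‖(1 - η) • x‖ ≤ 2 := by
    rw [norm_smul, Real.norm_eq_abs, abs_of_nonneg (by linarith)]
    nlinarith [norm_nonneg x]
  have hn2 : ‖(1 + η) • x‖ ≤ 2 := by
    rw [norm_smul, Real.norm_eq_abs, abs_of_nonneg (by linarith)]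
    nlinarith [norm_nonneg x]
  have h1 := abs_le.1 (hFG _ hn1)
  have h2 := abs_le.1 (hFG _ hn2)
  have hc : ContinuousOn (fun t : ℝ => G (t • x)) (Set.Icc (1 - η) (1 + η)) :=
    (hG.cont.comp (by fun_prop)).continuousOn
  have hiv := intermediate_value_Icc (by linarith : 1 - η ≤ 1 + η) hc
  have hmem : (1:ℝ) ∈ Set.Icc (G ((1 - η) • x)) (G ((1 + η) • x)) := by
    constructor <;> linarith [h1.1, h1.2, h2.1, h2.2]
  obtain ⟨t, ht, hGt⟩ := hiv hmem
  refine ⟨t • x, hGt, ?_⟩
  have e : x - t • x = (1 - t) • x := by module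
  rw [e, norm_smul, Real.norm_eq_abs]
  have h3 : |1 - t| ≤ η := by rw [abs_le]; constructor <;> linarith [ht.1, ht.2]
  calc |1 - t| * ‖x‖ ≤ η * 1 := mul_le_mul h3 hx1 (norm_nonneg _) hη.le
    _ = η := mul_one _

/-- the sublevel set of a good function is a convex body whose frontier is the level set -/
theorem Good.body {G : P → ℝ} (hG : Good G) :
    Convex ℝ {x | G x ≤ 1} ∧ IsCompact {x | G x ≤ 1} ∧ (interior {x | G x ≤ 1}).Nonempty ∧
      {x | G x = 1} = frontier {x | G x ≤ 1} := by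
  have hcl : IsClosed {x | G x ≤ 1} := isClosed_le hG.cont continuous_const
  have hop : IsOpen {x | G x < 1} := isOpen_lt hG.cont continuous_const
  have hsub : {x | G x < 1} ⊆ interior {x | G x ≤ 1} :=
    interior_maximal (fun x (hx : G x < 1) => show G x ≤ 1 from hx.le) hop
  refine ⟨?_, ?_, ⟨0, hsub ?_⟩, ?_⟩
  · have := hG.convex.convex_le 1
    simpa using this
  · apply Metric.isCompact_of_isClosed_isBounded hcl
    rw [isBounded_iff_forall_norm_le]
    exact ⟨1, fun x hx => (hG.ge x).trans hx⟩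
  · show G 0 < 1
    have := hG.zero
    linarith
  · ext x
    rw [hcl.frontier_eq]
    constructor
    · intro hx
      have hx' : G x = 1 := hx
      refine ⟨hx'.le, fun hint => ?_⟩
      rw [mem_interior_iff_mem_nhds, Metric.mem_nhds_iff] at hint
      obtain ⟨ε, hε, hball⟩ := hint
      have hx1 : ‖x‖ ≤ 1 := by rw [← hx']; exact hG.ge x
      have h2 : (1 + ε / 2) • x ∈ Metric.ball x ε := by
        rw [Metric.mem_ball, dist_eq_norm]
        have e : (1 + ε / 2) • x - x = (ε / 2) • x := by module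
        rw [e, norm_smul, Real.norm_eq_abs, abs_of_pos (by positivity)]
        nlinarith [norm_nonneg x]
      have h3 := hball h2
      have h4 := hG.ray_gt hx' (t := 1 + ε / 2) (by linarith)
      have h5 : G ((1 + ε / 2) • x) ≤ 1 := h3
      linarith
    · rintro ⟨h1, h2⟩
      have h1' : G x ≤ 1 := h1
      rcases lt_or_eq_of_le h1' with h | h
      · exact absurd (hsub h) h2
      · exact h

theorem summable_term (x : P) : Summable fun j => w j * ‖x - q j‖ :=
  summable_w_mul (C := ‖x‖ + 1) (fun j => norm_nonneg _)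
    fun j => (norm_sub_le _ _).trans (by linarith [norm_q_le j])

theorem F_lip (x y : P) : |F x - F y| ≤ 13 / 12 * ‖x - y‖ := by
  unfold F
  have hx := summable_term x
  have hy := summable_term y
  have h1 : ∀ j, |‖x - q j‖ - ‖y - q j‖| ≤ ‖x - y‖ := by
    intro j
    have := abs_norm_sub_norm_le (x - q j) (y - q j)
    rwa [sub_sub_sub_cancel_right] at this
  have h3 := summable_w_mul (fun j => abs_nonneg (‖x - q j‖ - ‖y - q j‖)) h1
  have h4 := tsum_w_mul_le (fun j => abs_nonneg (‖x - q j‖ - ‖y - q j‖)) h1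
  have h5 : ∀ j, ‖w j * (‖x - q j‖ - ‖y - q j‖)‖ = w j * |‖x - q j‖ - ‖y - q j‖| := by
    intro j
    rw [Real.norm_eq_abs, abs_mul, abs_of_pos (w_pos j)]
  have h6 : ‖∑' j, w j * (‖x - q j‖ - ‖y - q j‖)‖ ≤
      ∑' j, ‖w j * (‖x - q j‖ - ‖y - q j‖)‖ := by
    apply norm_tsum_le_tsum_norm
    simp only [h5]
    exact h3
  simp only [h5] at h6
  rw [Real.norm_eq_abs] at h6
  have h7 : (‖x‖ + ∑' j, w j * ‖x - q j‖) - (‖y‖ + ∑' j, w j * ‖y - q j‖) =
      (‖x‖ - ‖y‖) + ∑' j, w j * (‖x - q j‖ - ‖y - q j‖) := by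
    simp only [mul_sub]
    rw [hx.tsum_sub hy]
    ring
  rw [h7]
  have h8 := abs_norm_sub_norm_le x y
  calc _ ≤ |‖x‖ - ‖y‖| + |∑' j, w j * (‖x - q j‖ - ‖y - q j‖)| := abs_add_le _ _
    _ ≤ 13 / 12 * ‖x - y‖ := by linarith

theorem F_cont : Continuous F := by
  have : LipschitzWith (13 / 12) F := by
    apply LipschitzWith.of_dist_le_mul
    intro x y
    rw [Real.dist_eq, dist_eq_norm]
    have := F_lip x y
    simpa using this
  exact this.continuous

theorem convex_term (p x y : P) {a b : ℝ} (ha : 0 ≤ a) (hb : 0 ≤ b) (hab : a + b = 1) :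
    ‖(a • x + b • y) - p‖ ≤ a * ‖x - p‖ + b * ‖y - p‖ := by
  have e : (a • x + b • y) - p = a • (x - p) + b • (y - p) := by
    have : p = (a + b) • p := by rw [hab, one_smul]
    conv_lhs => rw [this]
    module
  rw [e]
  refine (norm_add_le _ _).trans ?_
  rw [norm_smul, norm_smul, Real.norm_eq_abs, Real.norm_eq_abs, abs_of_nonneg ha,
    abs_of_nonneg hb]

theorem good_F : Good F where
  cont := F_cont
  convex := by
    refine ⟨convex_univ, ?_⟩
    intro x _ y _ a b ha hb hab
    unfold F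
    have h0 := convex_term 0 x y ha hb hab
    simp only [sub_zero] at h0
    have h1 : ∑' j, w j * ‖(a • x + b • y) - q j‖ ≤
        a * ∑' j, w j * ‖x - q j‖ + b * ∑' j, w j * ‖y - q j‖ := by
      rw [← tsum_mul_left, ← tsum_mul_left,
        ← ((summable_term x).mul_left a).tsum_add ((summable_term y).mul_left b)]
      apply (summable_term _).tsum_le_tsum
      · intro j
        have := mul_le_mul_of_nonneg_left (convex_term (q j) x y ha hb hab) (w_pos j).le
        linarith
      · exact ((summable_term x).mul_left a).add ((summable_term y).mul_left b)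
    simp only [smul_eq_mul]
    linarith
  ge x := by
    unfold F
    have : 0 ≤ ∑' j, w j * ‖x - q j‖ :=
      tsum_nonneg fun j => mul_nonneg (w_pos j).le (norm_nonneg _)
    linarith
  zero := by
    unfold F
    have h1 := tsum_w_mul_le (a := fun j => ‖(0:P) - q j‖) (C := 1) (fun j => norm_nonneg _)
      (fun j => by rw [zero_sub, norm_neg]; exact norm_q_le j)
    rw [norm_zero]
    linarith

/-- the finite approximations -/
noncomputable def FN (N : ℕ) (x : P) : ℝ := ‖x‖ + ∑ j ∈ Finset.range N, w j * ‖x - q j‖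

theorem FN_le_F (N : ℕ) (x : P) : FN N x ≤ F x := by
  unfold FN F
  have := (summable_term x).sum_le_tsum (Finset.range N)
    (fun j _ => mul_nonneg (w_pos j).le (norm_nonneg _))
  linarith

theorem good_FN (N : ℕ) : Good (FN N) where
  cont := by unfold FN; fun_prop
  convex := by
    refine ⟨convex_univ, ?_⟩
    intro x _ y _ a b ha hb hab
    unfold FN
    have h0 := convex_term 0 x y ha hb hab
    simp only [sub_zero] at h0
    have h1 : ∑ j ∈ Finset.range N, w j * ‖(a • x + b • y) - q j‖ ≤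
        a * ∑ j ∈ Finset.range N, w j * ‖x - q j‖ +
          b * ∑ j ∈ Finset.range N, w j * ‖y - q j‖ := by
      rw [Finset.mul_sum, Finset.mul_sum, ← Finset.sum_add_distrib]
      apply Finset.sum_le_sum
      intro j _
      have := mul_le_mul_of_nonneg_left (convex_term (q j) x y ha hb hab) (w_pos j).le
      linarith
    simp only [smul_eq_mul]
    linarith
  ge x := by
    unfold FN
    have : 0 ≤ ∑ j ∈ Finset.range N, w j * ‖x - q j‖ :=
      Finset.sum_nonneg fun j _ => mul_nonneg (w_pos j).le (norm_nonneg _)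
    linarith
  zero := (FN_le_F N 0).trans good_F.zero

theorem F_sub_FN (N : ℕ) (x : P) (hx : ‖x‖ ≤ 2) :
    |F x - FN N x| ≤ 3 * ∑' j, w (j + N) := by
  have h1 : F x - FN N x = ∑' j, w (j + N) * ‖x - q (j + N)‖ := by
    unfold F FN
    have := (summable_term x).sum_add_tsum_nat_add N
    linarith
  rw [h1, abs_of_nonneg (tsum_nonneg fun j => mul_nonneg (w_pos _).le (norm_nonneg _))]
  have hs : Summable fun j => w (j + N) := (summable_nat_add_iff N).2 summable_w
  have h2 : ∀ j, w (j + N) * ‖x - q (j + N)‖ ≤ w (j + N) * 3 := by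
    intro j
    apply mul_le_mul_of_nonneg_left _ (w_pos _).le
    exact (norm_sub_le _ _).trans (by linarith [norm_q_le (j + N)])
  calc ∑' j, w (j + N) * ‖x - q (j + N)‖ ≤ ∑' j, w (j + N) * 3 :=
        ((summable_nat_add_iff (f := fun j => w j * ‖x - q j‖) N).2
          (summable_term x)).tsum_le_tsum h2 (hs.mul_right 3)
    _ = 3 * ∑' j, w (j + N) := by rw [tsum_mul_right]; ring

theorem exists_close {δ : ℝ} (hδ : 0 < δ) : ∃ N, ∀ x : P, ‖x‖ ≤ 2 → |F x - FN N x| ≤ δ := by
  have h := tendsto_sum_nat_add w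
  have h2 : Tendsto (fun N => 3 * ∑' j, w (j + N)) atTop (𝓝 (3 * 0)) := h.const_mul 3
  rw [mul_zero] at h2
  obtain ⟨N, hN⟩ := (h2.eventually (gt_mem_nhds hδ)).exists
  exact ⟨N, fun x hx => (F_sub_FN N x hx).trans hN.le⟩

/-- the sum of distances to finitely many points -/
noncomputable def distSum {n : ℕ} (x : Fin n → P) (p : P) : ℝ := ∑ i, ‖p - x i‖

/-- `FN N` is, up to a positive factor, a sum of distances to finitely many points -/
theorem FN_eq_distSum (N : ℕ) : ∃ (n : ℕ) (x : Fin n → P) (M : ℝ), 0 < M ∧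
    ∀ p, distSum x p = M * FN N p := by
  classical
  let ι := Fin (4 ^ (N + 2)) ⊕ (Σ j : Fin N, Fin (4 ^ (N - (j:ℕ))))
  let y : ι → P := Sum.elim (fun _ => 0) (fun s => q s.1)
  let e := Fintype.equivFin ι
  refine ⟨Fintype.card ι, fun i => y (e.symm i), 4 ^ (N + 2), by positivity, ?_⟩
  intro p
  unfold distSum
  rw [e.symm.sum_comp (fun i => ‖p - y i‖)]
  rw [Fintype.sum_sum_type, Fintype.sum_sigma]
  simp only [y, Sum.elim_inl, Sum.elim_inr, sub_zero, Finset.sum_const, Finset.card_univ,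
    Fintype.card_fin, nsmul_eq_mul]
  unfold FN
  rw [mul_add, Finset.mul_sum, ← Fin.sum_univ_eq_sum_range
    (fun j => (4:ℝ) ^ (N + 2) * (w j * ‖p - q j‖)) N]
  push_cast
  congr 1
  apply Finset.sum_congr rfl
  intro j _
  unfold w
  have hj : (j:ℕ) ≤ N := j.2.le
  have h1 : (4:ℝ) ^ (N + 2) = 4 ^ (N - (j:ℕ)) * 4 ^ ((j:ℕ) + 2) := by
    rw [← pow_add]; congr 1; omega
  rw [h1, mul_assoc, ← mul_assoc (4 ^ ((j:ℕ) + 2)), ← mul_pow]
  norm_num

end Pool.Agent.U195.MFE
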