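import Pool.Agent.U195.MFE.Corner

/-!
# The counterexample
-/

namespace Pool.Agent.U195.MFE

open scoped Topology ENNReal
open Filter MeasureTheory

theorem integrable_norm_sub (ν : Measure P) [IsFiniteMeasure ν]
    (hint : Integrable (fun y : P => ‖y‖) ν) (x : P) :
    Integrable (fun y : P => ‖x - y‖) ν := by
  refine ((integrable_const ‖x‖).add hint).mono'
    (by fun_prop : Continuous fun y : P => ‖x - y‖).aestronglyMeasurable ?_
  refine Eventually.of_forall fun y => ?_
  simp only [norm_norm, Pi.add_apply]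
  exact norm_sub_le x y

theorem pot_continuous (ν : Measure P) [IsFiniteMeasure ν]
    (hint : Integrable (fun y : P => ‖y‖) ν) :
    Continuous fun x : P => ∫ y, ‖x - y‖ ∂ν := by
  have : LipschitzWith (Real.toNNReal (ν.real Set.univ)) fun x : P => ∫ y, ‖x - y‖ ∂ν := by
    apply LipschitzWith.of_dist_le_mul
    intro x y
    rw [Real.coe_toNNReal _ measureReal_nonneg, Real.dist_eq, dist_eq_norm,
      ← integral_sub (integrable_norm_sub ν hint x) (integrable_norm_sub ν hint y)]
    have h := norm_integral_le_of_norm_le_const (μ := ν) (C := ‖x - y‖)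
      (f := fun z : P => ‖x - z‖ - ‖y - z‖) (Eventually.of_forall fun z => by
        have := abs_norm_sub_norm_le (x - z) (y - z)
        rw [sub_sub_sub_cancel_right] at this
        exact this)
    rw [Real.norm_eq_abs] at h
    linarith
  exact this.continuous

theorem pot_convex (ν : Measure P) [IsFiniteMeasure ν]
    (hint : Integrable (fun y : P => ‖y‖) ν) :
    ConvexOn ℝ Set.univ fun x : P => ∫ y, ‖x - y‖ ∂ν := by
  refine ⟨convex_univ, ?_⟩
  intro x _ y _ a b ha hb hab
  simp only [smul_eq_mul]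
  rw [← integral_const_mul, ← integral_const_mul,
    ← integral_add ((integrable_norm_sub ν hint x).const_mul a)
      ((integrable_norm_sub ν hint y).const_mul b)]
  exact integral_mono (integrable_norm_sub ν hint _)
    (((integrable_norm_sub ν hint x).const_mul a).add
      ((integrable_norm_sub ν hint y).const_mul b)) fun z => convex_term z x y ha hb hab

theorem sum_convex {m : ℕ} (p : Fin m → P) :
    ConvexOn ℝ Set.univ fun x : P => ∑ j, ‖x - p j‖ := by
  refine ⟨convex_univ, ?_⟩
  intro x _ y _ a b ha hb hab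
  simp only [smul_eq_mul]
  rw [Finset.mul_sum, Finset.mul_sum, ← Finset.sum_add_distrib]
  exact Finset.sum_le_sum fun j _ => convex_term (p j) x y ha hb hab

theorem exists_index {m : ℕ} (p : Fin m → P) : ∃ i, ∀ j, q i ≠ p j := by
  by_contra hcon
  push Not at hcon
  have h1 : Set.range q ⊆ Set.range p := by
    rintro _ ⟨i, rfl⟩
    obtain ⟨j, hj⟩ := hcon i
    exact ⟨j, hj.symm⟩
  exact Set.infinite_range_of_injective q_injective ((Set.finite_range p).subset h1)

/-- `{F = 1}` is not a level curve of a potential with finitely many atoms of the form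
`∑ ‖x - p j‖`. -/
theorem not_wide (ν : Measure P) [IsFiniteMeasure ν] (hat : ∀ x : P, ν {x} = 0)
    (hint : Integrable (fun y : P => ‖y‖) ν) {m : ℕ} (p : Fin m → P) {c : ℝ}
    (hc : ∃ x0, (∫ y, ‖x0 - y‖ ∂ν) + ∑ j, ‖x0 - p j‖ < c)
    (h : {x | F x = 1} = {x : P | (∫ y, ‖x - y‖ ∂ν) + ∑ j, ‖x - p j‖ = c}) : False := by
  obtain ⟨i, hi⟩ := exists_index p
  refine no_smooth i (fun x => (∫ y, ‖x - y‖ ∂ν) + ∑ j, ‖x - p j‖) ?_ ?_ ?_ hc h
  · refine (differentiable_pot ν hint (hat _)).add ?_
    refine DifferentiableAt.fun_sum fun j _ => ?_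
    exact (differentiableAt_id.sub_const (p j)).norm ℝ (sub_ne_zero.2 (hi j))
  · exact (pot_convex ν hint).add (sum_convex p)
  · exact (pot_continuous ν hint).add (by fun_prop)

/-- approximation by level curves of sums of distances -/
theorem approx {ε : ℝ} (hε : 0 < ε) : ∃ (n : ℕ) (x : Fin n → P) (c : ℝ),
    (∃ p0, distSum x p0 < c) ∧
    (∀ p, distSum x p = c → ∃ p', F p' = 1 ∧ ‖p - p'‖ ≤ ε) ∧
    (∀ p', F p' = 1 → ∃ p, distSum x p = c ∧ ‖p - p'‖ ≤ ε) := by
  set η := min ε 1 with hη
  have hη0 : 0 < η := lt_min hε one_pos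
  have hη1 : η ≤ 1 := min_le_right _ _
  obtain ⟨N, hN⟩ := exists_close (δ := η / 4) (by positivity)
  obtain ⟨n, x, M, hM, hx⟩ := FN_eq_distSum N
  refine ⟨n, x, M, ⟨0, ?_⟩, ?_, ?_⟩
  · rw [hx]
    have := (good_FN N).zero
    nlinarith
  · intro p hp
    rw [hx] at hp
    have h1 : FN N p = 1 := by
      have : M * FN N p = M * 1 := by rw [hp, mul_one]
      exact mul_left_cancel₀ hM.ne' this
    obtain ⟨p', h2, h3⟩ := (good_FN N).close good_F (δ := η / 4) hη0 hη1 (by linarith)
      (fun x hx => by rw [abs_sub_comm]; exact hN x hx) h1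
    exact ⟨p', h2, h3.trans (min_le_left _ _)⟩
  · intro p' hp'
    obtain ⟨p, h2, h3⟩ := good_F.close (good_FN N) (δ := η / 4) hη0 hη1 (by linarith) hN hp'
    refine ⟨p, by rw [hx, h2, mul_one], ?_⟩
    rw [norm_sub_rev]
    exact h3.trans (min_le_left _ _)

end Pool.Agent.U195.MFE
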